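import Pool.Agent.H31.UF.Targets

/-!
# [CBS] the Bessel inequality for one residue class of primes (MP_c59857_nt)
-/

set_option autoImplicit false

open Finset Filter Topology

namespace Pool.Agent.H18.UF

open Pool.Agent.H91.LF Pool.Agent.H31.UF

theorem pf_CBS (hPZ : T_PZ) : T_CBS := by
  intro d S _ A M e P X R hS hM hG he hP hX hR
  have hmul : ∀ x y : ℝ, |x| ≤ 1 → |y| ≤ 1 → |x * y| ≤ 1 := by
    intro x y hx hy
    rw [abs_mul]
    exact mul_le_one₀ hx (abs_nonneg _) hy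
  set x : ℕ → ℝ := fun p => M.E (fun ω => R ω * Bv A p (X p) ω) with hx
  set g : (Fin d → ℤ) → ℝ := fun ω => ∑ p ∈ P, x p * Bv A p (X p) ω with hg
  have hgb : Bdd g := bdd_sum _ _ fun p _ => bdd_smul _ (bdd_Bv _ _ _)
  have hRb : Bdd R := ⟨1, hR⟩
  have e1 : ∑ p ∈ P, (x p) ^ 2 = M.E (fun ω => R ω * g ω) := by
    have : (fun ω => R ω * g ω) =
        fun ω => ∑ p ∈ P, x p * (R ω * Bv A p (X p) ω) := by
      funext ω
      simp only [hg]
      rw [Finset.mul_sum]
      exact Finset.sum_congr rfl fun p _ => by ring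
    rw [this, M.E_sum P _ (fun p _ => bdd_smul _ (bdd_mul hRb (bdd_Bv _ _ _)))]
    apply Finset.sum_congr rfl
    intro p _
    rw [M.smul _ _ (bdd_mul hRb (bdd_Bv _ _ _)), sq]
  have e2 : M.E (fun ω => g ω * g ω) = ∑ p ∈ P, ∑ q ∈ P, x p * x q *
      M.E (fun ω => Bv A p (X p) ω * Bv A q (X q) ω) := by
    have : (fun ω => g ω * g ω) = fun ω => ∑ p ∈ P, ∑ q ∈ P, x p * x q *
        (Bv A p (X p) ω * Bv A q (X q) ω) := by
      funext ω
      simp only [hg]
      rw [Finset.sum_mul_sum]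
      exact Finset.sum_congr rfl fun p _ => Finset.sum_congr rfl fun q _ => by ring
    rw [this, M.E_sum P _ (fun p _ => bdd_sum _ _ fun q _ =>
      bdd_smul _ (bdd_mul (bdd_Bv _ _ _) (bdd_Bv _ _ _)))]
    apply Finset.sum_congr rfl
    intro p _
    rw [M.E_sum P _ (fun q _ => bdd_smul _ (bdd_mul (bdd_Bv _ _ _) (bdd_Bv _ _ _)))]
    apply Finset.sum_congr rfl
    intro q _
    rw [M.smul _ _ (bdd_mul (bdd_Bv _ _ _) (bdd_Bv _ _ _))]
  have e3 : M.E (fun ω => g ω * g ω) ≤ ∑ p ∈ P, (x p) ^ 2 := by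
    rw [e2]
    apply Finset.sum_le_sum
    intro p hp
    rw [Finset.sum_eq_single p]
    · have h1 : M.E (fun ω => Bv A p (X p) ω * Bv A p (X p) ω) ≤ 1 :=
        (le_abs_self _).trans (M.abs_E_le fun ω => hmul _ _ (abs_Bv_le _ _ _ _)
          (abs_Bv_le _ _ _ _))
      have h2 : 0 ≤ x p * x p := mul_self_nonneg _
      calc _ ≤ x p * x p * 1 := mul_le_mul_of_nonneg_left h1 h2
        _ = _ := by ring
    · intro q hq hqp
      rw [hPZ d S A M e p q (X p) (X q) hS hM hG he (hP p hp) (hP q hq) (Ne.symm hqp)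
        (hX p hp q hq (Ne.symm hqp)), mul_zero]
    · intro hp'
      exact absurd hp hp'
  have h3 := M.sq_E_mul_le hR hgb
  rw [← e1] at h3
  have h4 := h3.trans e3
  have h5 : 0 ≤ ∑ p ∈ P, (x p) ^ 2 := Finset.sum_nonneg fun p _ => sq_nonneg _
  by_contra hlt
  push Not at hlt
  nlinarith

end Pool.Agent.H18.UF
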