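import Pool.Agent.H31.UF.Targets
import Pool.Agent.H28.LFP.CPMain

/-!
# [CP] the mean level theorem for almost all primes (MP_c59857_nt)
-/

set_option autoImplicit false

open Finset Filter Topology

namespace Pool.Agent.H18.UF

open Pool.Agent.H91.LF Pool.Agent.H31.UF
open Pool.Agent.H28.LFP (dilE decc blk_le sF sF_spec bad_primes)

theorem pf_CP (hCOR : T_COR) (hCBS : T_CBS) (hGPD : T_GPD) (hWIN : T_WIN) : T_CP := by
  classical
  intro d r S0 _ A a cc j W z u e D C hS0 hW hI hDir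
  have hmul : ∀ x y : ℝ, |x| ≤ 1 → |y| ≤ 1 → |x * y| ≤ 1 := by
    intro x y hx hy
    rw [abs_mul]
    exact mul_le_one₀ hx (abs_nonneg _) hy
  rcases Nat.eq_zero_or_pos D with hD | hD
  · -- the case `D = 0`: every prime separately
    subst hD
    refine ⟨0, fun P M hM hG => ?_⟩
    have h1 : ∀ p ∈ primesLE P, (1 / (p : ℝ)) *
        (M.E (Fp A (fun i => a i + cc i * (p : ℤ)) W z)) ^ 2 = 0 := by
      intro p _
      rw [hCOR d r S0 A (fun i => a i + cc i * (p : ℤ)) W z u e j 0 C M hW hS0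
        ⟨hI.1, fun i hi s => by simpa using hI.2.1 i hi s, fun s => by simpa using hI.2.2 s⟩
        hDir hM hG]
      ring
    rw [Finset.sum_congr rfl h1]
    simp only [Finset.sum_const_zero, le_refl]
  -- the case `D > 0`
  have : NeZero W := ⟨hW.ne'⟩
  set L : ℕ := D * W with hL
  have hL0 : 0 < L := Nat.mul_pos hD hW
  -- the window
  set K : ℤ := ∑ i, ∑ s, ((W : ℤ) * ∑ l, |A i s l| + |lf (A i s) u| + |a i| + |cc i|) with hK
  have hterm0 : ∀ i s, 0 ≤ (W : ℤ) * ∑ l, |A i s l| + |lf (A i s) u| + |a i| + |cc i| :=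
    fun i s => by positivity
  set V : ℕ := K.toNat with hVdef
  have hV : ∀ i s, (W : ℤ) * ∑ l, |A i s l| + |lf (A i s) u| + |a i| + |cc i| ≤ V := by
    intro i s
    have h2 : (W : ℤ) * ∑ l, |A i s l| + |lf (A i s) u| + |a i| + |cc i| ≤
        ∑ s, ((W : ℤ) * ∑ l, |A i s l| + |lf (A i s) u| + |a i| + |cc i|) :=
      Finset.single_le_sum (f := fun s => (W : ℤ) * ∑ l, |A i s l| + |lf (A i s) u| + |a i| +
        |cc i|) (fun s _ => hterm0 i s) (Finset.mem_univ s)
    have h3 : ∑ s, ((W : ℤ) * ∑ l, |A i s l| + |lf (A i s) u| + |a i| + |cc i|) ≤ K :=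
      Finset.single_le_sum (f := fun i => ∑ s, ((W : ℤ) * ∑ l, |A i s l| + |lf (A i s) u| +
        |a i| + |cc i|)) (fun i _ => Finset.sum_nonneg fun s _ => hterm0 i s) (Finset.mem_univ i)
    exact (h2.trans h3).trans (Int.self_le_toNat K)
  set R : ℕ := 4 * V + 1 with hR
  set T := (Fin d → ZMod W) × (Fin r → S0 → SignType) with hT
  refine ⟨2 * (4 * (R * Real.log (Fintype.card T))) + 2 * L + L, fun P M hM hG => ?_⟩
  set U : Finset ℕ := primesLE P with hU0
  have hU : ∀ p ∈ U, p.Prime := fun p hp => (mem_filter.1 hp).2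
  set S : Finset ℕ := U.filter (fun p => Nat.Coprime L p) with hS
  have hSp : ∀ p ∈ S, p.Prime := fun p hp => hU p (mem_filter.1 hp).1
  have hSP : ∀ p ∈ S, p ≤ P := fun p hp => (mem_Icc.1 (mem_filter.1 (mem_filter.1 hp).1).1).2
  have hScop : ∀ p ∈ S, Nat.Coprime L p := fun p hp => (mem_filter.1 hp).2
  -- the shifts
  set sp : ℕ → ℕ := fun p => sF D (p % L) with hsp
  set kp : ℕ → ℕ := fun p => (1 + sp p * p) / D with hkp
  have hrcop : ∀ p ∈ S, Nat.Coprime (p % L) D := by
    intro p hp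
    have h1 : Nat.Coprime (p % L) L := by
      have := hScop p hp
      unfold Nat.Coprime at this ⊢
      rw [← Nat.gcd_rec]
      exact this
    exact Nat.Coprime.coprime_dvd_right (Dvd.intro _ rfl) h1
  have hspec : ∀ p ∈ S, sp p < D ∧ D ∣ 1 + sp p * (p % L) :=
    fun p hp => sF_spec D (p % L) hD (hrcop p hp)
  have hDp : ∀ p ∈ S, D ∣ 1 + sp p * p := by
    intro p hp
    have h1 : p % L ≡ p [MOD D] := (Nat.mod_modEq p L).of_dvd (Dvd.intro _ rfl)
    have h2 := (h1.mul_left (sp p)).add_left 1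
    exact (Nat.modEq_zero_iff_dvd.1 (h2.symm.trans (Nat.modEq_zero_iff_dvd.2 (hspec p hp).2)))
  have hkpD : ∀ p ∈ S, D * kp p = 1 + sp p * p := fun p hp => Nat.mul_div_cancel' (hDp p hp)
  have hkple : ∀ p ∈ S, kp p ≤ p := by
    intro p hp
    have h1 := hkpD p hp
    have h2 := (hspec p hp).1
    have h3 := (hSp p hp).one_le
    by_contra hlt
    push Not at hlt
    have h4 : D * (p + 1) ≤ D * kp p := Nat.mul_le_mul_left _ hlt
    have h5 : sp p * p + p ≤ D * p := by
      have : (sp p + 1) * p ≤ D * p := Nat.mul_le_mul_right _ h2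
      linarith
    have h6 : D * (p + 1) = D * p + D := by ring
    omega
  -- the local functions
  set tau : ℕ → Fin d → ℤ := fun p => (kp p : ℤ) • u + ((V : ℤ) * p) • e with htau
  set g : ℕ → (Fin d → ℤ) → ℝ := fun p ω =>
    Fp A (fun i => a i + cc i * p) W z (ω + tau p) with hg
  have hgb : ∀ p, ∀ ω, |g p ω| ≤ 1 := fun p ω => abs_Fp_le _ _ _ _ _
  have hgE : ∀ p : ℕ, M.E (g p) = M.E (Fp A (fun i => a i + cc i * (p : ℤ)) W z) := fun p =>
    M.shift (tau p) _ (bdd_Fp _ _ _ _)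
  -- the dilation
  set AA : ℕ → ℤ := fun p => V * p + cc j * p + a j + kp p * (C - D * a j) with hAA
  have hdil : ∀ p ∈ S, M.E (fun ω => (p : ℝ) ^ d *
      if ∀ i, (p : ℤ) ∣ ω i then g p ω else 0) =
      M.E (fun ω => Rp A a cc j W z u e V (p % L) (sp p) ((1 + sp p * (p % L)) / D) ω *
        Bv (A j) p (AA p) ω) := by
    intro p hp
    rw [← dilE hM p (hSp p hp) (g p) ⟨1, hgb p⟩]
    congr 1
    funext ω
    exact hGPD d r S0 A a cc j W z u e D C V p (p % L) (sp p) (kp p) _ hS0 hD (hSp p hp) hI hDir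
      (hkpD p hp) (Nat.mul_div_cancel' (hspec p hp).2) (Nat.mod_modEq p L).symm ω
  have hdec := decc M (xs A W) e W R P g S
    (fun p hp => ⟨hSp p hp, hSP p hp, (hScop p hp).coprime_dvd_left (Dvd.intro_left _ rfl)⟩)
    (fun p _ => hgb p) (by
      intro p hp M' hpM ω ω' hwin κ hκ
      have h1 := blk_le hpM
      have h2 : 2 * V * p < R * 2 ^ M' := by
        have h3 : 2 * V * p ≤ 2 * V * 2 ^ (M' + 1) := Nat.mul_le_mul_left _ h1
        have h4 : 0 < 2 ^ M' := by positivity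
        have h5 : R * 2 ^ M' = 4 * V * 2 ^ M' + 2 ^ M' := by rw [hR]; ring
        have h6 : 2 * V * 2 ^ (M' + 1) = 4 * V * 2 ^ M' := by rw [pow_succ]; ring
        omega
      have hpp : (1 : ℤ) ≤ p := by exact_mod_cast (hSp p hp).one_le
      have hval : ∀ i s, 0 ≤ lf (A i s) ((W : ℤ) • κ + tau p) + (a i + cc i * (p : ℤ)) ∧
          lf (A i s) ((W : ℤ) • κ + tau p) + (a i + cc i * (p : ℤ)) <
            ((R * 2 ^ M' : ℕ) : ℤ) := by
        intro i s
        have e1 : lf (A i s) ((W : ℤ) • κ + tau p) = W * lf (A i s) κ +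
            (kp p * lf (A i s) u + V * p) := by
          simp only [htau]
          rw [lf_add, lf_add, lf_smul, lf_smul, lf_smul, hDir i s, mul_one]
        have e2 : |lf (A i s) κ| ≤ p * ∑ l, |A i s l| :=
          abs_lf_le _ _ _ fun i => by
            rw [abs_of_nonneg (hκ i).1]
            exact (hκ i).2.le
        have hW0 : (0 : ℤ) ≤ W := by positivity
        have hkp' : (kp p : ℤ) ≤ p := by exact_mod_cast hkple p hp
        have hkp0 : (0 : ℤ) ≤ kp p := by positivity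
        have e3 : |(W : ℤ) * lf (A i s) κ| ≤ p * (W * ∑ l, |A i s l|) := by
          rw [abs_mul, abs_of_nonneg hW0]
          calc (W : ℤ) * |lf (A i s) κ| ≤ W * (p * ∑ l, |A i s l|) :=
                mul_le_mul_of_nonneg_left e2 hW0
            _ = _ := by ring
        have e4 : |(kp p : ℤ) * lf (A i s) u| ≤ p * |lf (A i s) u| := by
          rw [abs_mul, abs_of_nonneg hkp0]
          exact mul_le_mul_of_nonneg_right hkp' (abs_nonneg _)
        have e5 : |a i| ≤ p * |a i| := by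
          nlinarith [abs_nonneg (a i)]
        have e6 : |cc i * (p : ℤ)| = p * |cc i| := by
          rw [abs_mul, abs_of_nonneg (by linarith : (0 : ℤ) ≤ p)]
          ring
        have e7 : (p : ℤ) * ((W : ℤ) * ∑ l, |A i s l| + |lf (A i s) u| + |a i| + |cc i|) ≤
            p * V := mul_le_mul_of_nonneg_left (hV i s) (by linarith)
        have e8 : (p : ℤ) * ((W : ℤ) * ∑ l, |A i s l| + |lf (A i s) u| + |a i| + |cc i|) =
          p * (W * ∑ l, |A i s l|) + p * |lf (A i s) u| + p * |a i| + p * |cc i| := by ring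
        have h2' : 2 * (V : ℤ) * p < ((R * 2 ^ M' : ℕ) : ℤ) := by exact_mod_cast h2
        have f1 := abs_le.1 e3
        have f2 := abs_le.1 e4
        have f3 := abs_le.1 e5
        have f4 := abs_le.1 e6.le
        rw [e1]
        constructor
        · linarith
        · linarith
      have h3 := hWIN d r S0 A (fun i => a i + cc i * (p : ℤ)) W (R * 2 ^ M') z e
        ((W : ℤ) • κ + tau p) (by rw [hR]; positivity) hDir hval ω ω' hwin
      simp only [hg]
      rw [add_assoc, add_assoc]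
      exact h3) (by
      intro p hp
      rw [hdil p hp]
      exact M.abs_E_le fun ω => hmul _ _ (abs_Rp_le _ _ _ _ _ _ _ _ _ _ _ _ ω)
        (abs_Bv_le _ _ _ _))
      (fun p _ => M.abs_E_le (hgb p))
  -- one class
  have hcl : ∀ ρ ∈ range L, ∑ p ∈ S.filter (fun p => p % L = ρ),
      (M.E (fun ω => (p : ℝ) ^ d * if ∀ i, (p : ℤ) ∣ ω i then g p ω else 0)) ^ 2 ≤ 1 := by
    intro ρ _
    have e1 : ∑ p ∈ S.filter (fun p => p % L = ρ),
        (M.E (fun ω => (p : ℝ) ^ d * if ∀ i, (p : ℤ) ∣ ω i then g p ω else 0)) ^ 2 =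
        ∑ p ∈ S.filter (fun p => p % L = ρ),
        (M.E (fun ω => Rp A a cc j W z u e V ρ (sF D ρ) ((1 + sF D ρ * ρ) / D) ω *
          Bv (A j) p (AA p) ω)) ^ 2 := by
      apply Finset.sum_congr rfl
      intro p hp
      obtain ⟨hp1, hp2⟩ := mem_filter.1 hp
      rw [hdil p hp1]
      simp only [hsp, hp2]
    rw [e1]
    apply hCBS d S0 (A j) M e _ AA _ hS0 hM hG (hDir j) (fun p hp => hSp p (mem_filter.1 hp).1) _
      (fun ω => abs_Rp_le _ _ _ _ _ _ _ _ _ _ _ _ ω)
    intro p hp q hq hpq heq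
    obtain ⟨hp1, hp2⟩ := mem_filter.1 hp
    obtain ⟨hq1, hq2⟩ := mem_filter.1 hq
    have hs : sp p = sp q := by simp only [hsp, hp2, hq2]
    have k1 : (D : ℤ) * kp p = 1 + sp p * p := by exact_mod_cast hkpD p hp1
    have k2 : (D : ℤ) * kp q = 1 + sp p * q := by
      have := hkpD q hq1
      rw [← hs] at this
      exact_mod_cast this
    have h3 : ((q : ℤ) - p) * C = 0 := by
      have h4 : (q : ℤ) * AA p - p * AA q = 0 := by rw [heq]; ring
      simp only [hAA] at h4
      linear_combination (D : ℤ) * h4 - (q : ℤ) * (C - D * a j) * k1 +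
        (p : ℤ) * (C - D * a j) * k2
    rcases mul_eq_zero.1 h3 with h4 | h4
    · apply hpq
      have : (q : ℤ) = p := by linarith
      exact_mod_cast this.symm
    · exact hI.1 h4
  -- assembly
  have hsumS : ∑ p ∈ S,
      (M.E (fun ω => (p : ℝ) ^ d * if ∀ i, (p : ℤ) ∣ ω i then g p ω else 0)) ^ 2 ≤ L := by
    rw [← Finset.sum_fiberwise_of_maps_to (t := range L) (g := fun p => p % L)
      (fun p _ => mem_range.2 (Nat.mod_lt _ hL0))]
    calc _ ≤ ∑ r ∈ range L, (1 : ℝ) := Finset.sum_le_sum hcl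
      _ = L := by simp
  have hgood : ∑ p ∈ S, (1 / (p : ℝ)) * (M.E (Fp A (fun i => a i + cc i * (p : ℤ)) W z)) ^ 2 ≤
      2 * (4 * (R * Real.log (Fintype.card T))) + 2 * L := by
    calc ∑ p ∈ S, (1 / (p : ℝ)) * (M.E (Fp A (fun i => a i + cc i * (p : ℤ)) W z)) ^ 2
        ≤ ∑ p ∈ S, (2 * ((1 / (p : ℝ)) * (M.E (fun ω => (p : ℝ) ^ d *
            if ∀ i, (p : ℤ) ∣ ω i then g p ω else 0) - M.E (g p)) ^ 2) +
          2 * (M.E (fun ω => (p : ℝ) ^ d *
            if ∀ i, (p : ℤ) ∣ ω i then g p ω else 0)) ^ 2) := by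
          apply Finset.sum_le_sum
          intro p hp
          rw [← hgE p]
          set X := M.E (fun ω => (p : ℝ) ^ d *
            if ∀ i, (p : ℤ) ∣ ω i then g p ω else 0)
          set Y := M.E (g p)
          have h1 : (1:ℝ) ≤ p := by exact_mod_cast (hSp p hp).one_le
          have h2 : 0 ≤ 1 / (p : ℝ) := by positivity
          have h3 : 1 / (p : ℝ) ≤ 1 := by
            rw [div_le_one (by linarith)]
            exact h1
          have h4 : Y ^ 2 ≤ 2 * (X - Y) ^ 2 + 2 * X ^ 2 := by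
            nlinarith [sq_nonneg (2 * X - Y)]
          calc (1 / (p : ℝ)) * Y ^ 2 ≤ (1 / (p : ℝ)) * (2 * (X - Y) ^ 2 + 2 * X ^ 2) :=
                mul_le_mul_of_nonneg_left h4 h2
            _ = 2 * ((1 / (p : ℝ)) * (X - Y) ^ 2) + (1 / (p : ℝ)) * (2 * X ^ 2) := by ring
            _ ≤ 2 * ((1 / (p : ℝ)) * (X - Y) ^ 2) + 1 * (2 * X ^ 2) := by
                have : 0 ≤ 2 * X ^ 2 := by positivity
                nlinarith
            _ = _ := by ring
      _ = 2 * ∑ p ∈ S, ((1 / (p : ℝ)) * (M.E (fun ω => (p : ℝ) ^ d *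
            if ∀ i, (p : ℤ) ∣ ω i then g p ω else 0) - M.E (g p)) ^ 2) +
          2 * ∑ p ∈ S, (M.E (fun ω => (p : ℝ) ^ d *
            if ∀ i, (p : ℤ) ∣ ω i then g p ω else 0)) ^ 2 := by
          rw [Finset.sum_add_distrib, Finset.mul_sum, Finset.mul_sum]
      _ ≤ _ := by linarith
  have hbad := bad_primes U hU L hL0
    (fun p => (M.E (Fp A (fun i => a i + cc i * (p : ℤ)) W z)) ^ 2)
    (fun p => by
      have h1 : |M.E (Fp A (fun i => a i + cc i * (p : ℤ)) W z)| ≤ 1 :=
        M.abs_E_le fun ω => abs_Fp_le _ _ _ _ _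
      rw [abs_pow]
      exact pow_le_one₀ (abs_nonneg _) h1)
  rw [← Finset.sum_filter_add_sum_filter_not U (fun p => Nat.Coprime L p)]
  exact add_le_add hgood hbad

end Pool.Agent.H18.UF
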